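import Pool.Agent.Lib.helper20.QCNF

set_option autoImplicit false
set_option linter.unusedSectionVars false
open Finset NumberField Complex Real Pool.Agent.Lib.helper20.Quad

namespace Pool.Agent.H.MP_de9ce4_nt

variable {p : ℕ} [Fact p.Prime] {n : ℕ} (hp : p = 2 * n + 1)
include hp

omit hp in
lemma pm {a : ℕ} (ha : a ∈ Ico 1 p) : legendreSym p a = 1 ∨ legendreSym p a = -1 :=
  legendreSym.eq_one_or_neg_one p fun h => by
    have := Int.le_of_dvd (by have := mem_Ico.1 ha; omega)
      ((ZMod.intCast_zmod_eq_zero_iff_dvd _ p).1 h)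
    have := mem_Ico.1 ha
    omega

lemma sq_bij {M : Type*} [CommMonoid M] (f : ℕ → M) :
    ∏ k ∈ Icc 1 n, f (k ^ 2 % p) = ∏ a ∈ Ico 1 p with legendreSym p (a : ℕ) = 1, f a := by
  have h0 : ∀ k ∈ Icc 1 (2 * n), (k : ZMod p) ≠ 0 := fun k hk h => by
    have := mem_Icc.1 hk
    have := Nat.le_of_dvd (by omega) ((ZMod.natCast_eq_zero_iff k p).1 h)
    omega
  have h1 : ∀ a ∈ Icc 1 n, a ∈ Icc 1 (2 * n) := fun a ha => by rw [mem_Icc] at *; omega
  refine prod_bij (fun k _ => k ^ 2 % p) (fun k hk => ?_) (fun a ha b hb h => ?_) (fun a ha => ?_)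
    fun _ _ => rfl
  · have h2 : ((k ^ 2 % p : ℕ) : ZMod p) ≠ 0 := by simpa using h0 k (h1 k hk)
    refine mem_filter.2 ⟨mem_Ico.2 ⟨Nat.pos_of_ne_zero fun h => h2 (by simp [h]),
      Nat.mod_lt _ (by omega)⟩, (legendreSym.eq_one_iff' p h2).2 ⟨k, by simp [sq]⟩⟩
  · have h2 := (ZMod.natCast_eq_natCast_iff' _ _ _).2 h
    push_cast at h2
    rw [mem_Icc] at ha hb
    rcases sq_eq_sq_iff_eq_or_eq_neg.1 h2 with h3 | h3
    · have := (ZMod.natCast_eq_natCast_iff' _ _ _).1 h3
      rwa [Nat.mod_eq_of_lt (by omega), Nat.mod_eq_of_lt (by omega)] at this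
    · exact absurd (by push_cast; rw [h3, neg_add_cancel]) (h0 (a + b) (mem_Icc.2 (by omega)))
  · obtain ⟨h2, h3⟩ := mem_filter.1 ha
    rw [mem_Ico] at h2
    have h4 := h0 a (mem_Icc.2 (by omega))
    obtain ⟨x, hx⟩ := (legendreSym.eq_one_iff' p h4).1 h3
    have h5 := x.val_lt
    have h6 : x.val ≠ 0 := (ZMod.val_ne_zero _).2 fun h => h4 (by simp [hx, h])
    have h7 : ∀ k : ℕ, (k : ZMod p) ^ 2 = a → k ^ 2 % p = a := fun k h => by
      rw [← Nat.mod_eq_of_lt h2.2]
      exact (ZMod.natCast_eq_natCast_iff' _ _ _).1 (by simpa using h)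
    by_cases h : x.val ≤ n
    · exact ⟨x.val, mem_Icc.2 (by omega), h7 _ (by simp [hx, sq])⟩
    · exact ⟨p - x.val, mem_Icc.2 (by omega), h7 _ (by simp [Nat.cast_sub h5.le, hx, sq])⟩

lemma card_R : #{a ∈ Ico 1 p | legendreSym p (a : ℕ) = 1} = n := by
  simpa using (sq_bij hp (M := Multiplicative ℕ) fun _ => Multiplicative.ofAdd 1).symm

lemma sum_R : 2 * ∑ a ∈ Ico 1 p with legendreSym p (a : ℕ) = 1, (a : ℤ) =
    p * n + ∑ a ∈ range p, a * legendreSym p a := by
  have h1 : ∑ a ∈ range p, (a : ℤ) = p * n := by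
    have := congrArg (Nat.cast : ℕ → ℤ) (sum_range_id_mul_two p)
    rw [show p - 1 = 2 * n by omega] at this
    push_cast at this
    linarith
  rw [← h1, ← sum_add_distrib, range_eq_Ico, sum_eq_sum_Ico_succ_bot (by omega : 0 < p), sum_filter,
    mul_sum]
  simp only [Nat.cast_zero, zero_mul, zero_add]
  exact sum_congr rfl fun a ha => by rcases pm ha with h | h <;> simp [h, two_mul]

lemma form (y : ℝ) (P : ℕ → Prop) [DecidablePred P]
    (h1 : ∀ a ∈ Ico 1 p, 0 < (if P a then 1 else -1) * Real.sin (π * (y - a / p))) :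
    ∃ r : ℝ, 0 < r ∧ ∏ k ∈ Icc 1 n, (cexp (2 * π * I * y) - cexp (2 * π * I * (k : ℂ) ^ 2 / p)) =
      cexp (π * I * (2 * n + n * y + (∑ a ∈ range p, a * legendreSym p a : ℤ) / (2 * p) -
        #{a ∈ Ico 1 p | P a ∧ legendreSym p a = 1})) * r := by
  have hp0 : (p : ℂ) ≠ 0 := Nat.cast_ne_zero.2 (by omega)
  refine ⟨∏ a ∈ Ico 1 p with legendreSym p (a : ℕ) = 1,
    2 * ((if P a then 1 else -1) * Real.sin (π * (y - a / p))),
    prod_pos fun a ha => mul_pos two_pos (h1 a (mem_filter.1 ha).1), ?_⟩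
  have e1 := sq_bij hp fun a => cexp (2 * π * I * y) - cexp (2 * π * I * a / p)
  have e2 := congrArg (Int.cast : ℤ → ℂ) (sum_R hp)
  have e3 : (#{a ∈ Ico 1 p | P a ∧ legendreSym p a = 1} : ℂ) =
      ∑ a ∈ Ico 1 p with legendreSym p (a : ℕ) = 1, if P a then 1 else 0 := by
    simp [filter_filter, and_comm]
  rw [prod_congr rfl fun k _ => ?_, e1, e3, show π * I * (2 * n + n * y + _ / (2 * p) - _) =
    ∑ a ∈ Ico 1 p with legendreSym p (a : ℕ) = 1, π * I * (3 / 2 + y + a / p - if P a then 1 else 0) by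
      simp only [← mul_sum, sum_sub_distrib, sum_add_distrib, sum_const, card_R hp, ← sum_div]
      push_cast at e2 ⊢
      congr 2
      field_simp
      simp only [nsmul_eq_mul]
      linear_combination -e2, Complex.exp_sum, ofReal_prod, ← prod_mul_distrib]
  · refine prod_congr rfl fun a _ => ?_
    have h2 : cexp (π * I * (3 / 2 + y + a / p - if P a then 1 else 0)) *
        (if P a then 1 else -1) = I * cexp (π * I * (y + a / p)) := by
      rw [← Complex.exp_pi_div_two_mul_I, ← Complex.exp_add, Complex.exp_pi_div_two_mul_I]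
      split_ifs
      · rw [mul_one]; congr 1; ring
      · rw [← Complex.exp_pi_mul_I, ← Complex.exp_add, ← Complex.exp_periodic (π / 2 * I + _)]
        congr 1; ring
    push_cast [apply_ite ((↑) : ℝ → ℂ)]
    rw [mul_left_comm 2, ← mul_assoc, h2, Complex.two_sin,
      show 2 * π * I * y = π * I * (y + a / p) + π * (y - a / p) * I by ring,
      show 2 * π * I * a / p = π * I * (y + a / p) + -(π * (y - a / p)) * I by ring,
      Complex.exp_add, Complex.exp_add]
    linear_combination (cexp (π * I * (y + a / p)) * (cexp (π * (y - a / p) * I) -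
      cexp (-(π * (y - a / p)) * I))) * I_sq
  · rw [← Complex.exp_periodic.nat_mul (k ^ 2 / p) (2 * π * I * (k ^ 2 % p : ℕ) / p)]
    congr 2
    have := congrArg (Nat.cast : ℕ → ℂ) (Nat.mod_add_div (k ^ 2) p)
    push_cast at this
    field_simp
    linear_combination -this

lemma form1 : ∃ r : ℝ, 0 < r ∧
    ∏ k ∈ Icc 1 n, (cexp (2 * π * I * (1 : ℤ) / 12) - cexp (2 * π * I * (k : ℂ) ^ 2 / p)) =
      cexp (π * I * (2 * n + n / 12 + (∑ a ∈ range p, a * legendreSym p a : ℤ) / (2 * p) -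
        #{a ∈ Ico 1 p | 12 * a < p ∧ legendreSym p a = 1})) * r := by
  obtain ⟨r, h1, h2⟩ := form hp (1 / 12) (12 * · < p) fun a ha => by
    have h3 := frac ha
    have h4 : (0 : ℝ) < p := Nat.cast_pos.2 (by omega)
    split_ifs with h
    · have : (a / p : ℝ) < 1 / 12 := by
        rw [div_lt_div_iff₀ h4 (by norm_num)]; norm_cast; omega
      rw [one_mul]
      exact sin_pos_of_pos_of_lt_pi (mul_pos pi_pos (by linarith)) (by nlinarith [pi_pos])
    · have : 1 / 12 < (a / p : ℝ) := by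
        rw [div_lt_div_iff₀ (by norm_num) h4]; norm_cast; omega
      rw [neg_one_mul, ← Real.sin_neg]
      exact sin_pos_of_pos_of_lt_pi (by nlinarith [pi_pos]) (by nlinarith [pi_pos])
  exact ⟨r, h1, by convert h2 using 5 <;> push_cast <;> ring⟩

lemma form2 : ∃ r : ℝ, 0 < r ∧
    ∏ k ∈ Icc 1 n, (cexp (2 * π * I * (-1 : ℤ) / 12) - cexp (2 * π * I * (k : ℂ) ^ 2 / p)) =
      cexp (π * I * (2 * n - n / 12 + (∑ a ∈ range p, a * legendreSym p a : ℤ) / (2 * p) -
        #{a ∈ Ico 1 p | 12 * a < p ∧ legendreSym p (-a) = 1})) * r := by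
  obtain ⟨r, h1, h2⟩ := form hp (-1 / 12) (11 * p < 12 * ·) fun a ha => by
    have h3 := frac ha
    have h4 : (0 : ℝ) < p := Nat.cast_pos.2 (by omega)
    split_ifs with h
    · have : 11 / 12 < (a / p : ℝ) := by
        rw [div_lt_div_iff₀ (by norm_num) h4]; norm_cast; omega
      rw [one_mul, ← Real.sin_add_two_pi]
      exact sin_pos_of_pos_of_lt_pi (by nlinarith [pi_pos]) (by nlinarith [pi_pos])
    · have : (a / p : ℝ) < 11 / 12 := by
        rw [div_lt_div_iff₀ h4 (by norm_num)]; norm_cast; omega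
      rw [neg_one_mul, ← Real.sin_neg]
      exact sin_pos_of_pos_of_lt_pi (by nlinarith [pi_pos]) (by nlinarith [pi_pos])
  have h3 : #{a ∈ Ico 1 p | 11 * p < 12 * a ∧ legendreSym p a = 1} =
      #{a ∈ Ico 1 p | 12 * a < p ∧ legendreSym p (-a) = 1} := by
    have e : ∀ a ≤ p, legendreSym p (p - a : ℕ) = legendreSym p (-a) := fun a ha => by
      rw [legendreSym.mod, Nat.cast_sub ha, sub_eq_neg_add, Int.add_emod_right, ← legendreSym.mod]
    refine card_nbij' (p - ·) (p - ·) (fun a ha => ?_) (fun a ha => ?_) (fun a ha => ?_)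
      fun a ha => ?_ <;> simp only [coe_filter, mem_Ico, Set.mem_ofPred_eq] at ha ⊢
    · rw [← e _ (by omega), Nat.sub_sub_self ha.1.2.le]; exact ⟨by omega, by omega, ha.2.2⟩
    · rw [e _ ha.1.2.le]; exact ⟨by omega, by omega, ha.2.2⟩
    all_goals omega
  exact ⟨r, h1, by rw [← h3]; convert h2 using 5 <;> push_cast <;> ring⟩

omit hp in
lemma fin {k : ℕ} {x y : ℂ} (j : ℤ) (h : k + x + y = 2 * j) :
    (-1) ^ k * cexp (π * I * x) * cexp (π * I * y) = 1 := by
  rw [← Complex.exp_pi_mul_I, ← Complex.exp_nat_mul, ← Complex.exp_add, ← Complex.exp_add,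
    ← Complex.exp_int_mul_two_pi_mul_I j]
  congr 1
  linear_combination π * I * h

variable {K : Type*} [Field K] [NumberField K] (h2 : Module.finrank ℚ K = 2) {s : K}
  (hs : s * s = -p)
include h2 hs

lemma one (h4 : p % 4 = 1) : ∑ a ∈ range p, a * legendreSym p a = 0 ∧
    (∀ a : ℤ, legendreSym p (-a) = legendreSym p a) ∧ (classNumber K / 2 + n / 2) % 2 = 0 := by
  have l : ∀ a : ℤ, legendreSym p (-a) = legendreSym p a := fun a => by
    rw [← neg_one_mul, legendreSym.mul, legendreSym.at_neg_one (by omega),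
      ZMod.χ₄_nat_one_mod_four h4, one_mul]
  have e : ∀ k ∈ range n, legendreSym p (2 * n - k : ℕ) = legendreSym p (k + 1 : ℕ) := fun k hk => by
    have := mem_range.1 hk
    rw [← l (k + 1 : ℕ), legendreSym.mod p (-_), ← Int.add_emod_right, ← legendreSym.mod]
    congr 1; omega
  have h1 := leg_sum (p := p) (by omega)
  have h3 := h_four h2 hs h4
  have r : ∀ f : ℕ → ℤ, f 0 = 0 → ∑ a ∈ Ico 1 p, f a = ∑ k ∈ range n, (f (k + 1) + f (2 * n - k)) :=
    fun f h => by
      have := half_sum f n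
      rwa [← hp, range_eq_Ico, sum_eq_sum_Ico_succ_bot (by omega : 0 < p), add_right_inj] at this
  rw [r _ (by simp)] at h1 h3
  refine ⟨?_, l, ?_⟩
  · rw [congrArg range hp, half_sum, sum_congr rfl (g := fun k => p * legendreSym p (k + 1 : ℕ))
      fun k hk => by
        have := mem_range.1 hk
        rw [e k hk, ← add_mul]; congr 1; omega, ← mul_sum]
    rw [sum_congr rfl fun k hk => by rw [e k hk, ← two_mul], ← mul_sum] at h1
    simp only [mul_eq_zero] at h1
    simpa using Or.inr (h1.resolve_left two_ne_zero)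
  · obtain ⟨m, rfl⟩ : ∃ m, n = m + m := ⟨n / 2, by omega⟩
    rw [sum_congr rfl (g := fun k => 2 * if m ≤ k then legendreSym p (k + 1 : ℕ) else 0)
      fun k hk => by
        have := mem_range.1 hk
        rw [e k hk]
        split_ifs <;> omega, ← mul_sum] at h3
    have h5 : (∑ k ∈ range (m + m), if m ≤ k then legendreSym p (k + 1 : ℕ) else 0) % 2 =
        (∑ k ∈ range (m + m), if m ≤ k then 1 else 0) % 2 := by
      rw [Finset.sum_int_mod, Finset.sum_int_mod _ _ fun k => if m ≤ k then 1 else 0]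
      congr 1
      refine sum_congr rfl fun k hk => ?_
      have := mem_range.1 hk
      rcases pm (p := p) (a := k + 1) (mem_Ico.2 (by omega)) with h | h <;> rw [h] <;>
        split_ifs <;> rfl
    rw [sum_range_add (fun k => if m ≤ k then (1 : ℤ) else 0), sum_eq_zero (s := range m)
      fun k hk => if_neg (by simpa using hk)] at h5
    simp only [le_add_iff_nonneg_right, zero_le, if_true, sum_const, card_range, nsmul_eq_mul,
      mul_one, zero_add] at h5
    omega

lemma three (h4 : p % 4 = 3) (h3 : 3 < p) :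
    ∑ a ∈ range p, a * legendreSym p a = -(p * classNumber K) ∧ classNumber K % 2 = 1 ∧
    #{a ∈ Ico 1 p | 12 * a < p ∧ legendreSym p a = 1} +
      #{a ∈ Ico 1 p | 12 * a < p ∧ legendreSym p (-a) = 1} = p / 12 := by
  refine ⟨by rw [h_neg h2 hs h4 h3, neg_neg], ?_, ?_⟩
  · have h1 := h_half h2 hs h4 h3
    have h5 : (∑ k ∈ range (p / 2), legendreSym p (k + 1)) % 2 = (∑ k ∈ range (p / 2), 1) % 2 := by
      rw [Finset.sum_int_mod, Finset.sum_int_mod _ _ fun k => 1]
      congr 1
      refine sum_congr rfl fun k hk => ?_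
      have := mem_range.1 hk
      rcases pm (p := p) (a := k + 1) (mem_Ico.2 (by omega)) with h | h <;>
        rw [← Nat.cast_succ, h] <;> rfl
    simp only [sum_const, card_range, nsmul_eq_mul, mul_one] at h5
    rcases pm (p := p) (a := 2) (mem_Ico.2 (by omega)) with h | h <;>
      rw [show legendreSym p 2 = _ from h] at h1 <;> omega
  · rw [← card_union_of_disjoint, ← filter_or, show p / 12 = #(Icc 1 (p / 12)) by simp]
    · congr 1
      ext a
      simp only [mem_filter, mem_Icc, ← and_or_left]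
      refine ⟨fun h => by have := mem_Ico.1 h.1; omega, fun h => ?_⟩
      have h5 : a ∈ Ico 1 p := mem_Ico.2 (by omega)
      refine ⟨h5, by omega, (pm h5).imp id fun h => ?_⟩
      rw [← neg_one_mul, legendreSym.mul, legendreSym.at_neg_one (by omega),
        ZMod.χ₄_nat_three_mod_four h4, h]; rfl
    · refine disjoint_filter.2 fun a _ h5 h6 => ?_
      have := h6.2
      rw [← neg_one_mul, legendreSym.mul, legendreSym.at_neg_one (by omega),
        ZMod.χ₄_nat_three_mod_four h4, h5.2] at this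
      omega

end Pool.Agent.H.MP_de9ce4_nt
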