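import Pool.Agent.H.MP_de9ce4_nt.A

set_option autoImplicit false
open Finset NumberField Complex Real

namespace Pool.Agent.H.MP_de9ce4_nt

/-- The sign of the rotated product, for a general rotation `c`. -/
lemma main {p : ℕ} [Fact p.Prime] (h3 : 3 < p) {K : Type*} [Field K] [NumberField K]
    (h2 : Module.finrank ℚ K = 2) {s : K} (hs : s ^ 2 = -p) (c ε : ℤ) (hε : ε = 1 ∨ ε = -1)
    (j : ℕ) (u : ℤ) (h1 : p % 4 = 1 → (c + 1) * ε * (p - 1) = 24 * u ∧ (u + p / 4 + j) % 2 = 0)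
    (h4 : p % 4 = 3 → (c + 1) * ε * (p - 1) = 24 * u + 12 ∧
      (u + (if ε = 1 then 0 else p / 12) + j) % 2 = 0) :
    ∃ r : ℝ, 0 < r ∧ (-1) ^ j * ((-1) ^ (classNumber K / 2 +
      #{k ∈ Ico 1 p | 12 * k < p ∧ legendreSym p k = 1}) * cexp (2 * π * I * ε * c * (p - 1) / 48) *
      ∏ k ∈ Icc 1 ((p - 1) / 2), (cexp (2 * π * I * ε / 12) -
        cexp (2 * π * I * (k : ℂ) ^ 2 / p))) = r := by
  have ho := (Fact.out : p.Prime).eq_two_or_odd.resolve_left (by omega)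
  obtain ⟨n, hn⟩ : ∃ n, (p - 1) / 2 = n := ⟨_, rfl⟩
  have hp : p = 2 * n + 1 := by omega
  have hp0 : (p : ℂ) ≠ 0 := Nat.cast_ne_zero.2 (by omega)
  rw [sq] at hs
  have key : ∀ (r : ℝ) (k : ℕ) (y : ℂ) (v : ℤ), (j + k : ℕ) + ε * c * (p - 1) / 24 + y = 2 * v →
      (-1) ^ j * ((-1) ^ k * cexp (2 * π * I * ε * c * (p - 1) / 48) * (cexp (π * I * y) * r)) =
        r := fun r k y v h => by
    have := fin v h
    rw [show 2 * π * I * ε * c * (p - 1) / 48 = π * I * (ε * c * (p - 1) / 24) by ring]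
    linear_combination r * this
  have hc := congrArg (Nat.cast : ℕ → ℂ) hp
  push_cast at hc
  rw [hn]
  rcases Nat.odd_mod_four_iff.1 ho with h | h
  · obtain ⟨a1, a2, a3⟩ := one hp h2 hs h
    obtain ⟨b1, b2⟩ := h1 h
    obtain ⟨v, hv⟩ : ∃ v : ℤ, j + (classNumber K / 2 : ℕ) + u = 2 * v :=
      ⟨(j + (classNumber K / 2 : ℕ) + u) / 2, by omega⟩
    have c1 := congrArg (Int.cast : ℤ → ℂ) b1
    have c2 := congrArg (Int.cast : ℤ → ℂ) hv
    generalize classNumber K / 2 = w at *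
    push_cast at c1 c2
    rcases hε with rfl | rfl
    · obtain ⟨r, r1, r2⟩ := form1 hp
      refine ⟨r, r1, r2 ▸ key r _ _ (v + n) ?_⟩
      rw [a1]
      push_cast at c1 ⊢
      linear_combination c2 + c1 / 24 - hc / 24
    · obtain ⟨r, r1, r2⟩ := form2 hp
      refine ⟨r, r1, r2 ▸ key r _ _ (v + n) ?_⟩
      simp only [a1, a2]
      push_cast at c1 ⊢
      linear_combination c2 + c1 / 24 + hc / 24
  · obtain ⟨a1, a2, a3⟩ := three hp h2 hs h h3
    obtain ⟨b1, b2⟩ := h4 h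
    have c1 := congrArg (Int.cast : ℤ → ℂ) b1
    have c3 : (classNumber K : ℂ) = 2 * (classNumber K / 2 : ℕ) + 1 := by
      exact_mod_cast (by omega : classNumber K = 2 * (classNumber K / 2) + 1)
    have c4 : ((-(p * classNumber K) : ℤ) : ℂ) / (2 * p) = -(classNumber K / 2 : ℕ) - 1 / 2 := by
      rw [Int.cast_neg, Int.cast_mul, Int.cast_natCast, Int.cast_natCast, c3]; field_simp; ring
    generalize classNumber K / 2 = w at *
    rcases hε with rfl | rfl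
    · obtain ⟨r, r1, r2⟩ := form1 hp
      obtain ⟨v, hv⟩ : ∃ v : ℤ, j + u = 2 * v := ⟨(j + u) / 2, by simp at b2; omega⟩
      have c2 := congrArg (Int.cast : ℤ → ℂ) hv
      refine ⟨r, r1, r2 ▸ key r _ _ (v + n) ?_⟩
      rw [a1, c4]
      push_cast at c1 c2 ⊢
      linear_combination c2 + c1 / 24 - hc / 24
    · obtain ⟨r, r1, r2⟩ := form2 hp
      obtain ⟨v, hv⟩ : ∃ v : ℤ, j + u - (p / 12 : ℕ) = 2 * v :=
        ⟨(j + u - (p / 12 : ℕ)) / 2, by simp at b2; omega⟩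
      rw [← a3] at hv
      have c2 := congrArg (Int.cast : ℤ → ℂ) hv
      refine ⟨r, r1, r2 ▸ key r _ _
        (v + n + #{k ∈ Ico 1 p | 12 * k < p ∧ legendreSym p k = 1}) ?_⟩
      rw [a1, c4]
      push_cast at c1 c2 ⊢
      linear_combination c2 + c1 / 24 + hc / 24

end Pool.Agent.H.MP_de9ce4_nt
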